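import Pool.Agent.helper84.ZD.SpecA

set_option autoImplicit false

open Complex MeasureTheory

namespace Pool.Agent.ZD

open Pool.Agent.helper84.DM Pool.Agent.helper78.ED Pool.Agent.DH

lemma SPK_geo (X : ℝ) (hX : 1 ≤ X) :
    Summable (fun j : ℤ => Real.exp (-(|(j : ℝ)| / X))) := by
  have hX0 : 0 < X := by linarith
  have hr : Summable (fun n : ℕ => Real.exp (-((n : ℝ) / X))) := by
    have h1 : ∀ n : ℕ, Real.exp (-((n : ℝ) / X)) = (Real.exp (-(1 / X))) ^ n := by
      intro n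
      rw [← Real.exp_nat_mul]
      congr 1
      ring
    simp only [h1]
    refine summable_geometric_of_lt_one (Real.exp_pos _).le ?_
    rw [Real.exp_lt_one_iff]
    have : 0 < 1 / X := by positivity
    linarith
  rw [summable_int_iff_summable_nat_and_neg]
  constructor
  · refine hr.congr fun n => ?_
    simp
  · refine hr.congr fun n => ?_
    simp

/-- cosine part -/
noncomputable def SPK_C (f : ℝ → ℝ) (n : ℤ) : ℝ :=
  ∫ a in (-5 : ℝ)..5, f a * Real.cos (2 * Real.pi * ((n : ℝ) * Real.exp a))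

/-- sine part -/
noncomputable def SPK_S (f : ℝ → ℝ) (n : ℤ) : ℝ :=
  ∫ a in (-5 : ℝ)..5, f a * Real.sin (2 * Real.pi * ((n : ℝ) * Real.exp a))

lemma SPK_cf (f : ℝ → ℝ) (hf : Continuous f) (n : ℤ) :
    cf f n = ((SPK_C f n : ℝ) : ℂ) + ((SPK_S f n : ℝ) : ℂ) * I := by
  have h1 : ∀ a : ℝ, ((f a : ℝ) : ℂ) * ee ((n : ℝ) * Real.exp a) =
      ((f a * Real.cos (2 * Real.pi * ((n : ℝ) * Real.exp a)) : ℝ) : ℂ) +
      ((f a * Real.sin (2 * Real.pi * ((n : ℝ) * Real.exp a)) : ℝ) : ℂ) * I := by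
    intro a
    unfold ee
    rw [Complex.exp_mul_I]
    push_cast
    ring
  unfold cf
  simp only [h1]
  rw [intervalIntegral.integral_add, intervalIntegral.integral_mul_const,
    intervalIntegral.integral_ofReal, intervalIntegral.integral_ofReal]
  · rfl
  · apply Continuous.intervalIntegrable
    fun_prop
  · apply Continuous.intervalIntegrable
    fun_prop

lemma SPK_Sneg (f : ℝ → ℝ) (n : ℤ) : SPK_S f (-n) = - SPK_S f n := by
  unfold SPK_S
  rw [← intervalIntegral.integral_neg]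
  congr 1
  funext a
  rw [← mul_neg, ← Real.sin_neg]
  congr 2
  push_cast
  ring

lemma SPK_Ssum (f : ℝ → ℝ) (M : ℕ) (j : ℤ) : ∑ m ∈ MM M, SPK_S f (j * m) = 0 := by
  have h1 : ∑ m ∈ MM M, SPK_S f (j * m) = ∑ m ∈ MM M, SPK_S f (j * (-m)) := by
    refine Finset.sum_equiv (Equiv.neg ℤ) ?_ ?_
    · intro m
      simp only [MM, Finset.mem_erase, Finset.mem_Icc, Equiv.neg_apply]
      constructor
      · rintro ⟨h1, h2, h3⟩
        exact ⟨by omega, by omega, by omega⟩
      · rintro ⟨h1, h2, h3⟩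
        exact ⟨by omega, by omega, by omega⟩
    · intro m _
      simp
  have h2 : ∑ m ∈ MM M, SPK_S f (j * (-m)) = - ∑ m ∈ MM M, SPK_S f (j * m) := by
    rw [← Finset.sum_neg_distrib]
    apply Finset.sum_congr rfl
    intro m _
    rw [mul_neg, SPK_Sneg]
  linarith

lemma SPK_normsq (f : ℝ → ℝ) (hf : Continuous f) (M : ℕ) (j : ℤ) :
    ‖∑ m ∈ MM M, cf f (j * m)‖ ^ 2 = (∑ m ∈ MM M, SPK_C f (j * m)) ^ 2 := by
  have h1 : ∑ m ∈ MM M, cf f (j * m) = ((∑ m ∈ MM M, SPK_C f (j * m) : ℝ) : ℂ) := by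
    simp only [SPK_cf f hf, Finset.sum_add_distrib, ← Finset.sum_mul]
    rw [← Complex.ofReal_sum, ← Complex.ofReal_sum, SPK_Ssum]
    simp
  rw [h1, Complex.norm_real, Real.norm_eq_abs, sq_abs]

lemma SPK_Cbd (f : ℝ → ℝ) (hf : Continuous f) (n : ℤ) :
    |SPK_C f n| ≤ ∫ a in (-5 : ℝ)..5, |f a| := by
  unfold SPK_C
  rw [← Real.norm_eq_abs]
  refine (intervalIntegral.norm_integral_le_integral_norm (by norm_num)).trans ?_
  apply intervalIntegral.integral_mono_on (by norm_num)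
  · apply Continuous.intervalIntegrable
    fun_prop
  · apply Continuous.intervalIntegrable
    fun_prop
  · intro a _
    rw [norm_mul, Real.norm_eq_abs, Real.norm_eq_abs]
    have := Real.abs_cos_le_one (2 * Real.pi * ((n : ℝ) * Real.exp a))
    nlinarith [abs_nonneg (f a)]

lemma SPK_dbl (f : ℝ → ℝ) (hf : Continuous f) (E : ℝ) (j m₁ m₂ : ℤ) :
    ∫ a in (-5 : ℝ)..5, ∫ b in (-5 : ℝ)..5, f a * f b *
      (E * Real.cos (2 * Real.pi * (j : ℝ) * ((m₁ : ℝ) * Real.exp a + (m₂ : ℝ) * Real.exp b))) =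
    E * (SPK_C f (j * m₁) * SPK_C f (j * m₂) - SPK_S f (j * m₁) * SPK_S f (j * m₂)) := by
  have h1 : ∀ a b : ℝ, f a * f b *
      (E * Real.cos (2 * Real.pi * (j : ℝ) * ((m₁ : ℝ) * Real.exp a + (m₂ : ℝ) * Real.exp b))) =
      E * (f a * Real.cos (2 * Real.pi * (((j * m₁ : ℤ) : ℝ) * Real.exp a))) *
        (f b * Real.cos (2 * Real.pi * (((j * m₂ : ℤ) : ℝ) * Real.exp b))) -
      E * (f a * Real.sin (2 * Real.pi * (((j * m₁ : ℤ) : ℝ) * Real.exp a))) *
        (f b * Real.sin (2 * Real.pi * (((j * m₂ : ℤ) : ℝ) * Real.exp b))) := by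
    intro a b
    have e1 : 2 * Real.pi * (j : ℝ) * ((m₁ : ℝ) * Real.exp a + (m₂ : ℝ) * Real.exp b) =
        2 * Real.pi * (((j * m₁ : ℤ) : ℝ) * Real.exp a) +
        2 * Real.pi * (((j * m₂ : ℤ) : ℝ) * Real.exp b) := by
      push_cast
      ring
    rw [e1, Real.cos_add]
    ring
  have h2 : ∀ a : ℝ, ∫ b in (-5 : ℝ)..5, f a * f b *
      (E * Real.cos (2 * Real.pi * (j : ℝ) * ((m₁ : ℝ) * Real.exp a + (m₂ : ℝ) * Real.exp b))) =
      (E * SPK_C f (j * m₂)) * (f a * Real.cos (2 * Real.pi * (((j * m₁ : ℤ) : ℝ) * Real.exp a))) -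
      (E * SPK_S f (j * m₂)) *
        (f a * Real.sin (2 * Real.pi * (((j * m₁ : ℤ) : ℝ) * Real.exp a))) := by
    intro a
    simp only [h1]
    rw [intervalIntegral.integral_sub, intervalIntegral.integral_const_mul,
      intervalIntegral.integral_const_mul]
    · unfold SPK_C SPK_S
      ring
    · apply Continuous.intervalIntegrable
      fun_prop
    · apply Continuous.intervalIntegrable
      fun_prop
  simp only [h2]
  rw [intervalIntegral.integral_sub, intervalIntegral.integral_const_mul,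
    intervalIntegral.integral_const_mul]
  · unfold SPK_C SPK_S
    ring
  · apply Continuous.intervalIntegrable
    fun_prop
  · apply Continuous.intervalIntegrable
    fun_prop

lemma SPK_inner (f : ℝ → ℝ) (hf : Continuous f) (X : ℝ) (hX : 1 ≤ X) (m₁ m₂ : ℤ) (a : ℝ) :
    HasSum (fun j : ℤ => ∫ b in (-5 : ℝ)..5, f a * f b * (Real.exp (-(|(j : ℝ)| / X)) *
      Real.cos (2 * Real.pi * (j : ℝ) * ((m₁ : ℝ) * Real.exp a + (m₂ : ℝ) * Real.exp b))))
      (∫ b in (-5 : ℝ)..5, f a * f b *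
        PK X ((m₁ : ℝ) * Real.exp a + (m₂ : ℝ) * Real.exp b)) := by
  have hg := SPK_geo X hX
  apply intervalIntegral.hasSum_integral_of_dominated_convergence
    (fun (j : ℤ) (b : ℝ) => |f a| * |f b| * Real.exp (-(|(j : ℝ)| / X)))
  · intro j
    apply Continuous.aestronglyMeasurable
    fun_prop
  · intro j
    refine Filter.Eventually.of_forall fun b _ => ?_
    rw [norm_mul, norm_mul, norm_mul, Real.norm_eq_abs, Real.norm_eq_abs, Real.norm_eq_abs,
      Real.norm_eq_abs, abs_of_pos (Real.exp_pos _)]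
    have h1 := Real.abs_cos_le_one
      (2 * Real.pi * (j : ℝ) * ((m₁ : ℝ) * Real.exp a + (m₂ : ℝ) * Real.exp b))
    have h2 : Real.exp (-(|(j : ℝ)| / X)) * |Real.cos
      (2 * Real.pi * (j : ℝ) * ((m₁ : ℝ) * Real.exp a + (m₂ : ℝ) * Real.exp b))| ≤
        Real.exp (-(|(j : ℝ)| / X)) := by
      nlinarith [Real.exp_pos (-(|(j : ℝ)| / X))]
    exact mul_le_mul_of_nonneg_left h2 (by positivity)
  · exact Filter.Eventually.of_forall fun b _ => hg.mul_left _
  · simp only [tsum_mul_left]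
    apply Continuous.intervalIntegrable
    fun_prop
  · refine Filter.Eventually.of_forall fun b _ => ?_
    apply HasSum.mul_left
    unfold PK
    apply Summable.hasSum
    refine Summable.of_norm_bounded hg fun j => ?_
    rw [norm_mul, Real.norm_eq_abs, Real.norm_eq_abs, abs_of_pos (Real.exp_pos _)]
    have h1 := Real.abs_cos_le_one
      (2 * Real.pi * (j : ℝ) * ((m₁ : ℝ) * Real.exp a + (m₂ : ℝ) * Real.exp b))
    nlinarith [Real.exp_pos (-(|(j : ℝ)| / X))]

lemma SPK_outer (f : ℝ → ℝ) (hf : Continuous f) (X : ℝ) (hX : 1 ≤ X) (m₁ m₂ : ℤ) :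
    HasSum (fun j : ℤ => ∫ a in (-5 : ℝ)..5, ∫ b in (-5 : ℝ)..5,
      f a * f b * (Real.exp (-(|(j : ℝ)| / X)) *
      Real.cos (2 * Real.pi * (j : ℝ) * ((m₁ : ℝ) * Real.exp a + (m₂ : ℝ) * Real.exp b))))
      (∫ a in (-5 : ℝ)..5, ∫ b in (-5 : ℝ)..5, f a * f b *
        PK X ((m₁ : ℝ) * Real.exp a + (m₂ : ℝ) * Real.exp b)) := by
  have hg := SPK_geo X hX
  set K : ℝ := ∫ b in (-5 : ℝ)..5, |f b| with hK
  apply intervalIntegral.hasSum_integral_of_dominated_convergence
    (fun (j : ℤ) (a : ℝ) => |f a| * K * Real.exp (-(|(j : ℝ)| / X)))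
  · intro j
    apply Continuous.aestronglyMeasurable
    apply intervalIntegral.continuous_parametric_intervalIntegral_of_continuous'
    fun_prop
  · intro j
    refine Filter.Eventually.of_forall fun a _ => ?_
    refine (intervalIntegral.norm_integral_le_integral_norm (by norm_num)).trans ?_
    have h3 : |f a| * K * Real.exp (-(|(j : ℝ)| / X)) =
        ∫ b in (-5 : ℝ)..5, (|f a| * Real.exp (-(|(j : ℝ)| / X))) * |f b| := by
      rw [intervalIntegral.integral_const_mul]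
      ring
    rw [h3]
    apply intervalIntegral.integral_mono_on (by norm_num)
    · apply Continuous.intervalIntegrable
      fun_prop
    · apply Continuous.intervalIntegrable
      fun_prop
    · intro b _
      rw [norm_mul, norm_mul, norm_mul, Real.norm_eq_abs, Real.norm_eq_abs, Real.norm_eq_abs,
        Real.norm_eq_abs, abs_of_pos (Real.exp_pos _)]
      have h1 := Real.abs_cos_le_one
        (2 * Real.pi * (j : ℝ) * ((m₁ : ℝ) * Real.exp a + (m₂ : ℝ) * Real.exp b))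
      have h2 : Real.exp (-(|(j : ℝ)| / X)) * |Real.cos
        (2 * Real.pi * (j : ℝ) * ((m₁ : ℝ) * Real.exp a + (m₂ : ℝ) * Real.exp b))| ≤
          Real.exp (-(|(j : ℝ)| / X)) := by
        nlinarith [Real.exp_pos (-(|(j : ℝ)| / X))]
      have h4 := mul_le_mul_of_nonneg_left h2 (a := |f a| * |f b|) (by positivity)
      linarith
  · exact Filter.Eventually.of_forall fun a _ => hg.mul_left _
  · simp only [tsum_mul_left]
    apply Continuous.intervalIntegrable
    fun_prop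
  · exact Filter.Eventually.of_forall fun a _ => SPK_inner f hf X hX m₁ m₂ a

theorem SPK : SPK_stmt := by
  intro f X M hf hX
  have hg := SPK_geo X hX
  constructor
  · simp only [SPK_normsq f hf]
    set K : ℝ := ∫ b in (-5 : ℝ)..5, |f b| with hK
    refine Summable.of_norm_bounded (hg.mul_right (((MM M).card * K) ^ 2)) fun j => ?_
    rw [norm_mul, norm_pow, Real.norm_eq_abs, abs_of_pos (Real.exp_pos _), Real.norm_eq_abs]
    apply mul_le_mul_of_nonneg_left _ (Real.exp_pos _).le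
    apply pow_le_pow_left₀ (abs_nonneg _)
    refine (Finset.abs_sum_le_sum_abs _ _).trans ?_
    refine (Finset.sum_le_sum fun m _ => SPK_Cbd f hf (j * m)).trans ?_
    rw [Finset.sum_const, nsmul_eq_mul]
  · have h1 : HasSum (fun j : ℤ => ∑ m₁ ∈ MM M, ∑ m₂ ∈ MM M,
        ∫ a in (-5 : ℝ)..5, ∫ b in (-5 : ℝ)..5,
        f a * f b * (Real.exp (-(|(j : ℝ)| / X)) *
        Real.cos (2 * Real.pi * (j : ℝ) * ((m₁ : ℝ) * Real.exp a + (m₂ : ℝ) * Real.exp b))))
        (∑ m₁ ∈ MM M, ∑ m₂ ∈ MM M, ∫ a in (-5 : ℝ)..5, ∫ b in (-5 : ℝ)..5,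
          f a * f b * PK X ((m₁ : ℝ) * Real.exp a + (m₂ : ℝ) * Real.exp b)) := by
      apply hasSum_sum
      intro m₁ _
      apply hasSum_sum
      intro m₂ _
      exact SPK_outer f hf X hX m₁ m₂
    rw [← h1.tsum_eq]
    congr 1
    funext j
    rw [SPK_normsq f hf]
    simp only [SPK_dbl f hf]
    have h2 : ∀ m₁ ∈ MM M, ∑ m₂ ∈ MM M, Real.exp (-(|(j : ℝ)| / X)) *
        (SPK_C f (j * m₁) * SPK_C f (j * m₂) - SPK_S f (j * m₁) * SPK_S f (j * m₂)) =
        Real.exp (-(|(j : ℝ)| / X)) * (SPK_C f (j * m₁) * ∑ m₂ ∈ MM M, SPK_C f (j * m₂)) := by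
      intro m₁ _
      rw [← Finset.mul_sum, Finset.sum_sub_distrib, ← Finset.mul_sum, ← Finset.mul_sum, SPK_Ssum]
      ring
    rw [Finset.sum_congr rfl h2, ← Finset.mul_sum, ← Finset.sum_mul]
    ring

end Pool.Agent.ZD
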